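import Pool.Agent.V11316.H4

set_option autoImplicit false

/-!
# `L_n(q) ≡ R_n(q) (mod Φ_n(q)³)` for every odd `n`

`L_n(q) = ∑_{k<n} [2k,k] q^k/(-q;q)_k`, `R_n(q) = ∑_{k<n} q^{2k} (q;q²)_k²/(q²;q²)_k²`.
-/

namespace Pool.Agent.Results.MP_781342_nt.PhiCubed

open Polynomial Finset

noncomputable section

/-- the indeterminate `q` -/
def q : RatFunc ℚ := RatFunc.X

/-- the `q`-shifted factorial `(a;p)_k = ∏_{j<k} (1 - a p^j)` -/
def poch (a p : RatFunc ℚ) (k : ℕ) : RatFunc ℚ := ∏ j ∈ range k, (1 - a * p ^ j)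

/-- the central Gaussian binomial coefficient `(q;q)_{2k}/(q;q)_k²` -/
def cbin (k : ℕ) : RatFunc ℚ := poch q q (2 * k) / poch q q k ^ 2

/-- `L_n(q)` -/
def L (n : ℕ) : RatFunc ℚ := ∑ k ∈ range n, cbin k * (q ^ k / poch (-q) q k)

/-- `R_n(q)` -/
def R (n : ℕ) : RatFunc ℚ :=
  ∑ k ∈ range n, q ^ (2 * k) * poch q (q ^ 2) k ^ 2 / poch (q ^ 2) (q ^ 2) k ^ 2

/-- the rational function attached to an integral polynomial -/
def ev (P : ℤ[X]) : RatFunc ℚ := algebraMap ℚ[X] (RatFunc ℚ) (P.map (Int.castRingHom ℚ))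

/-- `A ≡ B (mod Φ_n(q)^m)`: `A - B = P/D` with `P, D ∈ ℤ[q]`, `Φ_n^m ∣ P` and `D` coprime to
`Φ_n` -/
def CongMod (n m : ℕ) (A B : RatFunc ℚ) : Prop :=
  ∃ P D : ℤ[X], cyclotomic n ℤ ^ m ∣ P ∧
    IsCoprime (D.map (Int.castRingHom ℚ)) (cyclotomic n ℚ) ∧ A - B = ev P / ev D

theorem L_eq (n : ℕ) : L n = V11316.H.fL n V11307.Q.q := by
  rw [L, V11316.H.fL]
  refine sum_congr rfl fun k hk => ?_
  clear hk
  have h1 : poch q q (2 * k) = poch q (q ^ 2) k * poch (q ^ 2) (q ^ 2) k := by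
    induction k with
    | zero => simp [poch]
    | succ k ih =>
      have e1 : ∀ (a p : RatFunc ℚ) (m : ℕ), poch a p (m + 1) = poch a p m * (1 - a * p ^ m) :=
        fun a p m => by rw [poch, prod_range_succ, ← poch]
      rw [show 2 * (k + 1) = 2 * k + 1 + 1 by ring, e1, e1, e1, e1, ih, pow_succ q (2 * k),
        ← pow_mul]
      ring
  have h2 : poch q q k * poch (-q) q k = poch (q ^ 2) (q ^ 2) k := by
    rw [poch, poch, poch, ← prod_mul_distrib]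
    refine prod_congr rfl fun j _ => ?_
    rw [← pow_mul, mul_comm 2 j, pow_mul]
    ring
  have n1 : poch q q k ≠ 0 := V11316.Del.ff_ne V11316.Del.NR_q k
  have n2 : poch (q ^ 2) (q ^ 2) k ≠ 0 := V11316.poch_qm_ne two_pos k
  have n3 : poch (-q) q k ≠ 0 := fun h => n2 (by rw [← h2, h, mul_zero])
  change cbin k * (q ^ k / poch (-q) q k) = poch q (q ^ 2) k * (poch q q k)⁻¹ * q ^ k
  rw [cbin, h1, ← h2]
  field_simp

theorem R_eq (n : ℕ) : R n = V11316.H.gR n V11307.Q.q V11307.Q.q := by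
  rw [R, V11316.H.gR]
  refine sum_congr rfl fun k _ => ?_
  change q ^ (2 * k) * poch q (q ^ 2) k ^ 2 / poch (q ^ 2) (q ^ 2) k ^ 2 =
    poch q (q ^ 2) k * poch q (q ^ 2) k * ((poch (q ^ 2) (q ^ 2) k)⁻¹) ^ 2 * (q ^ 2) ^ k
  rw [pow_mul, div_eq_mul_inv]
  ring

/-- For every odd `n ≥ 1`, `L_n(q) ≡ R_n(q) (mod Φ_n(q)³)`. -/
theorem result (n : ℕ) (hn : Odd n) : CongMod n 3 (L n) (R n) := by
  obtain ⟨s, hs⟩ := hn
  have hn0 : 0 < n := by omega
  have h := V11316.H.main_cong hs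
  rw [← L_eq, ← R_eq] at h
  obtain ⟨P, D, hD, hP, he⟩ := V11316.I.int hn0 h
  have hD2 : ¬ cyclotomic n ℚ ∣ D.map (Int.castRingHom ℚ) := by
    rw [← map_cyclotomic_int, Polynomial.map_dvd_map (Int.castRingHom ℚ)
      (RingHom.injective_int _) (cyclotomic.monic n ℤ)]
    exact hD
  have hc := ((V11307.Q.cyc_irr hn0).coprime_iff_not_dvd.2 hD2).symm
  refine ⟨P, D, hP, hc, ?_⟩
  have hD0 : ev D ≠ 0 := by
    rw [ev]
    refine V11307.Q.φ_ne fun h0 => hD2 ?_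
    rw [h0]; exact dvd_zero _
  rw [eq_div_iff hD0]
  exact he

end

end Pool.Agent.Results.MP_781342_nt.PhiCubed
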